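import Pool.Agent.H.MP_24a6f7_nt.D

namespace Pool.Agent.Results.MP_24a6f7_nt.Mersenne
open Pool.Agent.H.MP_24a6f7_nt

theorem result :
    (∀ m : ℕ, 4 ≤ m → (Sol m).Finite) ∧ Mers ⊆ Sol 3 ∧ (Sol 3 \ Mers).Finite ∧
      ((∀ m : ℕ, 3 ≤ m → (Sol m).Finite) ↔ {j : ℕ | (2 ^ j - 1).Prime}.Finite) := by
  refine ⟨fin_ge4, mers_sub, fin_three, ?_⟩
  rw [← mers_fin]
  constructor
  · intro h
    exact (h 3 le_rfl).subset mers_sub
  · intro h m hm
    rcases eq_or_lt_of_le hm with h' | h'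
    · subst h'
      exact (h.union fin_three).subset fun x hx => by
        by_cases hx' : x ∈ Mers
        · exact Or.inl hx'
        · exact Or.inr ⟨hx, hx'⟩
    · exact fin_ge4 m h'

end Pool.Agent.Results.MP_24a6f7_nt.Mersenne
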